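import Pool.Agent.W744.BU.Stm

set_option autoImplicit false

namespace Pool.Agent.W688.BU.BR

open Pool.Agent.W744.BU

theorem unit_aux {B : Type} [CStarAlgebra B] (x : B) (hx : x ∈ unitary B) (r : ℝ) (hr0 : 0 ≤ r)
    (hr1 : r < 1) : IsUnit ((1 : B) - (r : ℂ) • x) := by
  rcases subsingleton_or_nontrivial B with h | h
  · exact isUnit_of_subsingleton _
  · apply isUnit_one_sub_of_norm_lt_one
    rw [norm_smul, CStarRing.norm_of_mem_unitary hx, mul_one]
    simpa [abs_of_nonneg hr0] using hr1

theorem main : S_BR := by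
  intro B _ x hx r hr0 hr1
  obtain ⟨w, hw⟩ := unit_aux x hx r hr0 hr1
  have hx1 : star x * x = 1 := Unitary.star_mul_self_of_mem hx
  have hx2 : x * star x = 1 := Unitary.mul_star_self_of_mem hx
  have hb : bF r x = ((r : ℂ) • (1 : B) - x) * ((w⁻¹ : Bˣ) : B) := by
    unfold bF
    rw [← hw, Ring.inverse_unit]
  set w' : B := ((w⁻¹ : Bˣ) : B) with hw'
  set u : B := (1 : B) - (r : ℂ) • x with hu
  set v : B := (r : ℂ) • (1 : B) - x with hv
  have h1 : u * w' = 1 := by rw [← hw, hw']; exact w.mul_inv
  have h2 : w' * u = 1 := by rw [← hw, hw']; exact w.inv_mul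
  have h1s : star w' * star u = 1 := by rw [← star_mul, h1, star_one]
  have h2s : star u * star w' = 1 := by rw [← star_mul, h2, star_one]
  have hsv : star v = (r : ℂ) • (1 : B) - star x := by
    rw [hv, star_sub, star_smul, star_one]
    simp
  have hsu : star u = (1 : B) - (r : ℂ) • star x := by
    rw [hu, star_sub, star_smul, star_one]
    simp
  have e1 : star v * v = star u * u := by
    rw [hsv, hsu, hv, hu]
    simp only [sub_mul, mul_sub, smul_mul_assoc, mul_smul_comm, one_mul, mul_one, hx1, smul_sub,
      smul_smul]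
    module
  have e2 : v * star v = u * star u := by
    rw [hsv, hsu, hv, hu]
    simp only [sub_mul, mul_sub, smul_mul_assoc, mul_smul_comm, one_mul, mul_one, hx2, smul_sub,
      smul_smul]
    module
  have ecom : v * u = u * v := by
    rw [hv, hu]
    simp only [sub_mul, mul_sub, smul_mul_assoc, mul_smul_comm, one_mul, mul_one, smul_sub,
      smul_smul]
    abel
  have ecw : v * w' = w' * v := by
    calc v * w' = (w' * u) * (v * w') := by rw [h2, one_mul]
      _ = w' * (u * v) * w' := by simp only [mul_assoc]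
      _ = w' * (v * u) * w' := by rw [ecom]
      _ = w' * v * (u * w') := by simp only [mul_assoc]
      _ = w' * v := by rw [h1, mul_one]
  have hbb : star (bF r x) * bF r x = 1 := by
    rw [hb, star_mul]
    calc star w' * star v * (v * w') = star w' * (star v * v) * w' := by simp only [mul_assoc]
      _ = (star w' * star u) * (u * w') := by rw [e1]; simp only [mul_assoc]
      _ = 1 := by rw [h1, h1s, one_mul]
  have hbb' : bF r x * star (bF r x) = 1 := by
    rw [hb, ecw, star_mul]
    calc w' * v * (star v * star w') = w' * (v * star v) * star w' := by simp only [mul_assoc]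
      _ = (w' * u) * (star u * star w') := by rw [e2]; simp only [mul_assoc]
      _ = 1 := by rw [h2, h2s, one_mul]
  refine ⟨Unitary.mem_iff.2 ⟨hbb, hbb'⟩, ?_, ?_⟩
  · intro h0
    unfold bF
    rw [h0]
    simp
  · intro q hq0 hq1
    set b : B := bF r x with hbdef
    have hs : (((Real.sqrt (q * (1 - q)) : ℝ) : ℂ)) * (((Real.sqrt (q * (1 - q)) : ℝ) : ℂ)) =
        (q : ℂ) * (1 - (q : ℂ)) := by
      rw [← Complex.ofReal_mul, Real.mul_self_sqrt (mul_nonneg hq0 (by linarith))]
      push_cast
      ring
    unfold BF AF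
    rw [← hbdef]
    have hss : star (((Real.sqrt (q * (1 - q)) : ℝ) : ℂ)) = ((Real.sqrt (q * (1 - q)) : ℝ) : ℂ) :=
      Complex.conj_ofReal _
    generalize (((Real.sqrt (q * (1 - q)) : ℝ) : ℂ)) = s at hs hss
    rw [star_smul, hss]
    simp only [star_add, star_smul, star_sub, star_one, Complex.star_def, Complex.conj_ofReal,
      add_mul, mul_add, sub_mul, mul_sub, smul_mul_assoc, mul_smul_comm, one_mul, mul_one,
      hbb, hbb', smul_sub, smul_smul, hs]
    push_cast
    module

end Pool.Agent.W688.BU.BR
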