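import Pool.Agent.W744.BU.Stm

set_option autoImplicit false

namespace Pool.Agent.W688.BU.EST

open Pool.Agent.W744.BU

variable {B : Type} [CStarAlgebra B]

theorem nproj (Q : B) (h1 : Q * Q = Q) (h2 : star Q = Q) : ‖Q‖ ≤ 1 := by
  have h := CStarRing.norm_star_mul_self (x := Q)
  rw [h2, h1] at h
  by_contra hc
  push Not at hc
  nlinarith

theorem key (b Q : B) (hb : star b * b = 1) (h1 : Q * Q = Q) (h2 : star Q = Q)
    (h3 : Q * b * Q = ((49 / 50 : ℝ) : ℂ) • Q) : ‖(1 - b) * Q‖ ≤ 1 / 5 := by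
  have h4 : Q * star b * Q = ((49 / 50 : ℝ) : ℂ) • Q := by
    have h := congrArg star h3
    rw [star_mul, star_mul, h2, star_smul, h2] at h
    rw [mul_assoc, h]
    congr 1
    exact Complex.conj_ofReal _
  have h5 : star ((1 - b) * Q) * ((1 - b) * Q) = ((1 / 25 : ℝ) : ℂ) • Q := by
    rw [star_mul, star_sub, star_one, h2]
    have : Q * (1 - star b) * ((1 - b) * Q) =
        Q * Q - Q * b * Q - Q * star b * Q + Q * (star b * b) * Q := by noncomm_ring
    rw [this, h3, h4, hb, mul_one, h1]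
    push_cast
    module
  have h6 := CStarRing.norm_star_mul_self (x := (1 - b) * Q)
  rw [h5, norm_smul] at h6
  have h7 : ‖((1 / 25 : ℝ) : ℂ)‖ = 1 / 25 := by
    rw [Complex.norm_real]; norm_num
  rw [h7] at h6
  have h8 := nproj Q h1 h2
  have h9 := norm_nonneg ((1 - b) * Q)
  by_contra hc
  push Not at hc
  nlinarith

theorem main : S_EST := by
  intro B _ b y Q hb hy hQQ hQs hQb hPy q hq0 hq1 A C c hA hC hc
  rcases subsingleton_or_nontrivial B with hs | hn
  · have h0 : star A * (y - 1) * A + star A * (y - 1) * star C * star y * c = 0 :=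
      Subsingleton.elim _ _
    rw [h0, norm_zero]
    norm_num
  have hb1 : star b * b = 1 := Unitary.star_mul_self_of_mem hb
  have hb2 : b * star b = 1 := Unitary.mul_star_self_of_mem hb
  have hy2 : y * star y = 1 := Unitary.mul_star_self_of_mem hy
  have nb : ‖b‖ = 1 := CStarRing.norm_of_mem_unitary hb
  have nbs : ‖star b‖ = 1 := by rw [norm_star, nb]
  have ny : ‖y‖ = 1 := CStarRing.norm_of_mem_unitary hy
  have nys : ‖star y‖ = 1 := by rw [norm_star, ny]
  have nQ : ‖Q‖ ≤ 1 := nproj Q hQQ hQs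
  obtain ⟨P, hP⟩ : ∃ P : B, P = 1 - Q := ⟨_, rfl⟩
  rw [← hP] at hPy
  have hPs : star P = P := by rw [hP, star_sub, star_one, hQs]
  have hPP : P * P = P := by
    rw [hP]
    have : (1 - Q) * (1 - Q) = 1 - Q - Q + Q * Q := by noncomm_ring
    rw [this, hQQ]
    abel
  have nP : ‖P‖ ≤ 1 := nproj P hPP hPs
  have hPys : P * star y * P = 0 := by
    have h := congrArg star hPy
    rw [star_mul, star_mul, hPs, star_zero] at h
    rw [mul_assoc, h]
  have hQbs : Q * star b * Q = ((49 / 50 : ℝ) : ℂ) • Q := by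
    have h := congrArg star hQb
    rw [star_mul, star_mul, hQs, star_smul, hQs] at h
    rw [mul_assoc, h]
    congr 1
    exact Complex.conj_ofReal _
  have k2 : ‖Q * (1 - b)‖ ≤ 1 / 5 := by
    have h := key (star b) Q (by rw [star_star]; exact hb2) hQQ hQs hQbs
    have e : star (Q * (1 - b)) = (1 - star b) * Q := by
      rw [star_mul, star_sub, star_one, hQs]
    rw [← norm_star, e]
    exact h
  obtain ⟨s, hs⟩ : ∃ s : ℂ, s = ((Real.sqrt (q * (1 - q)) : ℝ) : ℂ) := ⟨_, rfl⟩
  have ns : ‖s‖ ≤ 1 / 2 := by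
    rw [hs, Complex.norm_real, Real.norm_eq_abs, abs_of_nonneg (Real.sqrt_nonneg _)]
    rw [Real.sqrt_le_left (by norm_num)]
    nlinarith [sq_nonneg (q - 1 / 2)]
  rw [← hs] at hA
  have nQA : ‖Q * A‖ ≤ 1 / 10 := by
    rw [hA, mul_smul_comm, norm_smul]
    calc ‖s‖ * ‖Q * (1 - b)‖ ≤ 1 / 2 * (1 / 5) :=
          mul_le_mul ns k2 (norm_nonneg _) (by norm_num)
      _ = 1 / 10 := by norm_num
  have nAQ : ‖star A * Q‖ ≤ 1 / 10 := by
    have e : star A * Q = star (Q * A) := by rw [star_mul, hQs]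
    rw [e, norm_star]
    exact nQA
  have nA : ‖A‖ ≤ 1 := by
    rw [hA, norm_smul]
    have h2 : ‖(1 : B) - b‖ ≤ 2 := by
      calc ‖(1 : B) - b‖ ≤ ‖(1 : B)‖ + ‖b‖ := norm_sub_le _ _
        _ = 2 := by rw [nb, CStarRing.norm_one]; norm_num
    calc ‖s‖ * ‖(1 : B) - b‖ ≤ 1 / 2 * 2 := mul_le_mul ns h2 (norm_nonneg _) (by norm_num)
      _ = 1 := by norm_num
  have nAs : ‖star A‖ ≤ 1 := by rw [norm_star]; exact nA
  have nC : ‖star C‖ ≤ 1 := by
    rw [norm_star, hC]
    calc ‖(q : ℂ) • (1 : B) + ((1 - q : ℝ) : ℂ) • b‖ ≤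
        ‖(q : ℂ) • (1 : B)‖ + ‖((1 - q : ℝ) : ℂ) • b‖ := norm_add_le _ _
      _ = q + (1 - q) := by
          rw [norm_smul, norm_smul, nb, CStarRing.norm_one, Complex.norm_real,
            Complex.norm_real, Real.norm_eq_abs, Real.norm_eq_abs, abs_of_nonneg hq0,
            abs_of_nonneg (by linarith : (0 : ℝ) ≤ 1 - q), mul_one, mul_one]
      _ = 1 := by ring
  obtain ⟨D, hD⟩ : ∃ D : B, D = ((1 - q : ℝ) : ℂ) • (star b - ((49 / 50 : ℝ) : ℂ) • (1 : B)) :=
    ⟨_, rfl⟩
  have nD : ‖D‖ ≤ 2 := by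
    rw [hD, norm_smul, Complex.norm_real, Real.norm_eq_abs,
      abs_of_nonneg (by linarith : (0 : ℝ) ≤ 1 - q)]
    have h2 : ‖star b - ((49 / 50 : ℝ) : ℂ) • (1 : B)‖ ≤ 2 := by
      calc ‖star b - ((49 / 50 : ℝ) : ℂ) • (1 : B)‖ ≤
          ‖star b‖ + ‖((49 / 50 : ℝ) : ℂ) • (1 : B)‖ := norm_sub_le _ _
        _ = 1 + 49 / 50 := by
            rw [nbs, norm_smul, CStarRing.norm_one, Complex.norm_real]
            norm_num
        _ ≤ 2 := by norm_num
    calc (1 - q) * ‖star b - ((49 / 50 : ℝ) : ℂ) • (1 : B)‖ ≤ 1 * 2 :=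
          mul_le_mul (by linarith) h2 (norm_nonneg _) (by norm_num)
      _ = 2 := by norm_num
  have hQDQ : Q * D * Q = 0 := by
    rw [hD]
    have : Q * (((1 - q : ℝ) : ℂ) • (star b - ((49 / 50 : ℝ) : ℂ) • (1 : B))) * Q =
        ((1 - q : ℝ) : ℂ) • (Q * star b * Q - ((49 / 50 : ℝ) : ℂ) • (Q * Q)) := by
      simp only [mul_smul_comm, smul_mul_assoc, mul_sub, sub_mul, mul_one]
    rw [this, hQbs, hQQ, sub_self, smul_zero]
  -- the three terms
  have nT1 : ‖star A * y * A‖ ≤ 1 / 5 := by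
    have e : star A * y * A = star A * Q * (y * A) + star A * P * y * (Q * A) := by
      have e' : star A * y * A = star A * Q * (y * A) + star A * P * y * (Q * A) +
          star A * (P * y * P) * A := by
        rw [hP]; noncomm_ring
      rw [e', hPy]
      simp
    rw [e]
    have i1 : ‖star A * Q * (y * A)‖ ≤ 1 / 10 := by
      calc ‖star A * Q * (y * A)‖ ≤ ‖star A * Q‖ * ‖y * A‖ := norm_mul_le _ _
        _ ≤ ‖star A * Q‖ * (‖y‖ * ‖A‖) :=
            mul_le_mul_of_nonneg_left (norm_mul_le _ _) (norm_nonneg _)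
        _ ≤ 1 / 10 * (1 * 1) := by
            rw [ny]
            exact mul_le_mul nAQ (by linarith) (by positivity) (by norm_num)
        _ = 1 / 10 := by norm_num
    have i2 : ‖star A * P * y * (Q * A)‖ ≤ 1 / 10 := by
      calc ‖star A * P * y * (Q * A)‖ ≤ ‖star A * P * y‖ * ‖Q * A‖ := norm_mul_le _ _
        _ ≤ ‖star A * P‖ * ‖y‖ * ‖Q * A‖ :=
            mul_le_mul_of_nonneg_right (norm_mul_le _ _) (norm_nonneg _)
        _ ≤ ‖star A‖ * ‖P‖ * ‖y‖ * ‖Q * A‖ := by
            gcongr
            exact norm_mul_le _ _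
        _ ≤ 1 * 1 * 1 * (1 / 10) := by
            rw [ny]
            gcongr
        _ = 1 / 10 := by norm_num
    calc _ ≤ _ := norm_add_le _ _
      _ ≤ 1 / 10 + 1 / 10 := add_le_add i1 i2
      _ = 1 / 5 := by norm_num
  have nT2 : ‖star A * y * D * star y * A‖ ≤ 2 / 5 := by
    have h0 : P * y * D * star y * P = 0 := by
      have a1 : P * y = P * y * Q := by
        have : P * y = P * y * Q + P * y * P := by rw [hP]; noncomm_ring
        rw [hPy, add_zero] at this
        exact this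
      have a2 : star y * P = Q * (star y * P) := by
        have : star y * P = Q * (star y * P) + P * star y * P := by rw [hP]; noncomm_ring
        rw [hPys, add_zero] at this
        exact this
      calc P * y * D * star y * P = (P * y) * D * (star y * P) := by simp only [mul_assoc]
        _ = (P * y * Q) * D * (Q * (star y * P)) := by rw [← a1, ← a2]
        _ = P * y * (Q * D * Q) * (star y * P) := by simp only [mul_assoc]
        _ = 0 := by rw [hQDQ]; simp
    have e : star A * y * D * star y * A =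
        star A * Q * (y * D * star y * A) + star A * P * (y * D * star y) * (Q * A) := by
      have e' : star A * y * D * star y * A =
          star A * Q * (y * D * star y * A) + star A * P * (y * D * star y) * (Q * A) +
          star A * (P * y * D * star y * P) * A := by
        rw [hP]; noncomm_ring
      rw [e', h0]
      simp
    rw [e]
    have j : ‖y * D * star y‖ ≤ 2 := by
      calc ‖y * D * star y‖ ≤ ‖y * D‖ * ‖star y‖ := norm_mul_le _ _
        _ ≤ ‖y‖ * ‖D‖ * ‖star y‖ :=
            mul_le_mul_of_nonneg_right (norm_mul_le _ _) (norm_nonneg _)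
        _ = ‖D‖ := by rw [ny, nys]; ring
        _ ≤ 2 := nD
    have i1 : ‖star A * Q * (y * D * star y * A)‖ ≤ 1 / 5 := by
      calc ‖star A * Q * (y * D * star y * A)‖ ≤ ‖star A * Q‖ * ‖y * D * star y * A‖ :=
            norm_mul_le _ _
        _ ≤ ‖star A * Q‖ * (‖y * D * star y‖ * ‖A‖) :=
            mul_le_mul_of_nonneg_left (norm_mul_le _ _) (norm_nonneg _)
        _ ≤ 1 / 10 * (2 * 1) := by gcongr
        _ = 1 / 5 := by norm_num
    have i2 : ‖star A * P * (y * D * star y) * (Q * A)‖ ≤ 1 / 5 := by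
      calc ‖star A * P * (y * D * star y) * (Q * A)‖ ≤
          ‖star A * P * (y * D * star y)‖ * ‖Q * A‖ := norm_mul_le _ _
        _ ≤ ‖star A * P‖ * ‖y * D * star y‖ * ‖Q * A‖ :=
            mul_le_mul_of_nonneg_right (norm_mul_le _ _) (norm_nonneg _)
        _ ≤ ‖star A‖ * ‖P‖ * ‖y * D * star y‖ * ‖Q * A‖ := by
            gcongr
            exact norm_mul_le _ _
        _ ≤ 1 * 1 * 2 * (1 / 10) := by gcongr
        _ = 1 / 5 := by norm_num
    calc _ ≤ _ := norm_add_le _ _
      _ ≤ 1 / 5 + 1 / 5 := add_le_add i1 i2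
      _ = 2 / 5 := by norm_num
  have nT3 : ‖star A * star C * star y * A‖ ≤ 1 / 5 := by
    have hcomm : star A * star C = star C * star A := by
      rw [← star_mul, ← star_mul]
      congr 1
      rw [hA, hC]
      simp only [mul_smul_comm, smul_mul_assoc, mul_sub, sub_mul, mul_add, add_mul, mul_one,
        one_mul]
      module
    have e : star A * star C * star y * A = star C * star (star A * y * A) := by
      rw [hcomm, star_mul, star_mul, star_star]
      simp only [mul_assoc]
    rw [e]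
    calc ‖star C * star (star A * y * A)‖ ≤ ‖star C‖ * ‖star (star A * y * A)‖ :=
          norm_mul_le _ _
      _ ≤ 1 * (1 / 5) := by
          rw [norm_star (star A * y * A)]
          gcongr
      _ = 1 / 5 := by norm_num
  obtain ⟨β, hβ⟩ : ∃ β : ℝ, β = q + (1 - q) * (49 / 50) := ⟨_, rfl⟩
  have hβ1 : 49 / 50 ≤ β := by rw [hβ]; nlinarith
  have hβ0 : 0 < β := by linarith
  rw [← hβ] at hc
  have hsC : star C = (β : ℂ) • (1 : B) + D := by
    rw [hC, hD, hβ, star_add, star_smul, star_smul, star_one]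
    simp only [Complex.star_def, Complex.conj_ofReal]
    push_cast
    module
  have hE : star A * (y - 1) * A + star A * (y - 1) * star C * star y * c =
      star A * y * A + (((β⁻¹ : ℝ)) : ℂ) • (star A * y * D * star y * A) -
        (((β⁻¹ : ℝ)) : ℂ) • (star A * star C * star y * A) := by
    have e1 : star A * (y - 1) * star C * star y * c =
        (((β⁻¹ : ℝ)) : ℂ) • (star A * y * star C * star y * A) -
        (((β⁻¹ : ℝ)) : ℂ) • (star A * star C * star y * A) := by
      rw [hc, mul_smul_comm, ← smul_sub]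
      congr 1
      noncomm_ring
    have e2 : star A * y * star C * star y * A =
        (β : ℂ) • (star A * A) + star A * y * D * star y * A := by
      rw [hsC]
      have : star A * y * ((β : ℂ) • (1 : B) + D) * star y * A =
          (β : ℂ) • (star A * (y * star y) * A) + star A * y * D * star y * A := by
        simp only [mul_add, add_mul, mul_smul_comm, smul_mul_assoc, mul_one, mul_assoc]
      rw [this, hy2, mul_one]
    have e3 : star A * (y - 1) * A = star A * y * A - star A * A := by noncomm_ring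
    rw [e1, e2, e3, smul_add, smul_smul]
    have e4 : (((β⁻¹ : ℝ)) : ℂ) * (β : ℂ) = 1 := by
      rw [← Complex.ofReal_mul, inv_mul_cancel₀ hβ0.ne', Complex.ofReal_one]
    rw [e4, one_smul]
    abel
  have nβ : ‖(((β⁻¹ : ℝ)) : ℂ)‖ ≤ 50 / 49 := by
    rw [Complex.norm_real, Real.norm_eq_abs, abs_of_nonneg (by positivity)]
    rw [show (50 / 49 : ℝ) = (49 / 50)⁻¹ by norm_num]
    exact inv_anti₀ (by norm_num) hβ1
  rw [hE]
  calc _ ≤ ‖star A * y * A + (((β⁻¹ : ℝ)) : ℂ) • (star A * y * D * star y * A)‖ +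
        ‖(((β⁻¹ : ℝ)) : ℂ) • (star A * star C * star y * A)‖ := norm_sub_le _ _
    _ ≤ ‖star A * y * A‖ + ‖(((β⁻¹ : ℝ)) : ℂ) • (star A * y * D * star y * A)‖ +
        ‖(((β⁻¹ : ℝ)) : ℂ) • (star A * star C * star y * A)‖ := by
          gcongr
          exact norm_add_le _ _
    _ ≤ 1 / 5 + 50 / 49 * (2 / 5) + 50 / 49 * (1 / 5) := by
          rw [norm_smul, norm_smul]
          gcongr
    _ < 1 := by norm_num

end Pool.Agent.W688.BU.EST
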